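import Pool.Agent.helper66.WD.Spec

/-! Row wd:DEM (MP_dc9173_lc): change of rings. -/

universe u

namespace Pool.Agent.WD

open MvPolynomial Pool.Agent.helper92.VC

theorem DEM_alg {n : Type*} {K k : Type u} [CommRing K] [CommRing k] (π : K →+* k)
    {A B : Type*} [CommRing A] [Algebra K A] [CommRing B] [Algebra k B] (σ : A →+* B)
    (hσ : ∀ a : K, σ (algebraMap K A a) = algebraMap k B (π a)) (f : n → A) (g : n → B)
    (hfg : ∀ i, σ (f i) = g i) (q : MvPolynomial n K) :
    σ (aeval f q) = aeval g (MvPolynomial.map π q) := by
  induction q using MvPolynomial.induction_on with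
  | C a => rw [MvPolynomial.algHom_C, map_C, MvPolynomial.algHom_C, hσ]
  | add p q hp hq => rw [map_add, map_add, hp, hq, map_add, map_add]
  | mul_X p i hp => rw [map_mul, map_mul, hp, map_mul, map_mul, aeval_X, map_X, aeval_X, hfg]

theorem DEM : DEM_stmt.{u} := by
  intro n K k _ _ π
  refine ⟨?_, ?_, ?_, ?_, ?_, ?_, ?_⟩
  · intro q
    unfold DD
    rw [map_sum]
    refine Finset.sum_congr rfl fun l _ => ?_
    rw [map_mul, map_X, pderiv_map]
  · intro p
    unfold emb
    rw [map_rename]
  · intro h
    ext1 m
    unfold dz
    rw [PowerSeries.coeff_map, PowerSeries.coeff_derivative, PowerSeries.coeff_derivative,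
      map_mul, PowerSeries.coeff_map]
    congr 1
    rw [map_add, map_one, map_natCast]
  · intro α q
    unfold line2
    refine DEM_alg π (PowerSeries.map (MvPolynomial.map π)) ?_ _ _ ?_ q
    · intro a
      rw [PowerSeries.algebraMap_apply, PowerSeries.algebraMap_apply, PowerSeries.map_C,
        MvPolynomial.algebraMap_eq, MvPolynomial.algebraMap_eq, map_C]
    · rintro (i | i)
      · simp [PowerSeries.map_C]
      · simp [PowerSeries.map_C]
  · intro α q
    unfold line
    refine DEM_alg π (PowerSeries.map (MvPolynomial.map π)) ?_ _ _ ?_ q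
    · intro a
      rw [PowerSeries.algebraMap_apply, PowerSeries.algebraMap_apply, PowerSeries.map_C,
        MvPolynomial.algebraMap_eq, MvPolynomial.algebraMap_eq, map_C]
    · intro i
      simp [PowerSeries.map_C]
  · intro α q
    unfold shift
    refine DEM_alg π (MvPolynomial.map π) ?_ _ _ ?_ q
    · intro a
      change MvPolynomial.map π (C a) = C (π a)
      rw [map_C]
    · intro i
      simp
  · intro j p
    ext1 m
    rw [coeff_map, coeff_homogeneousComponent, coeff_homogeneousComponent, coeff_map]
    split_ifs
    · rfl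
    · rw [map_zero]

end Pool.Agent.WD
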