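import Pool.Agent.helper66.WD.Spec

/-! Row wd:RUN (MP_dc9173_lc): the rank of the recursion. -/

universe u

namespace Pool.Agent.WD

open MvPolynomial Pool.Agent.helper92.VC

theorem RUN (hLRX : LRX_stmt.{u}) : RUN_stmt.{u} := by
  intro n K _ c W l Lam h L
  obtain ⟨hmono, hmul, -, hadd, hdz, -, hone, hzero⟩ := hLRX n K l
  induction L with
  | nil =>
    intro D _ _
    refine ⟨fun i => hone D, fun m => ?_⟩
    change LR 1 l D (if m = 0 then 1 else 0)
    split_ifs
    · exact hone D
    · exact hzero 1 D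
  | cons t L ih =>
    intro D hLam hh
    obtain ⟨w, hw⟩ : ∃ w, w = wd W L.length := ⟨_, rfl⟩
    have hlen : D + (t :: L).length = (D + 1) + L.length := by
      rw [List.length_cons]
      omega
    rw [hlen] at hLam hh
    obtain ⟨r1, c1⟩ := ih (D + 1) hLam hh
    have hLam0 : LR W l D Lam := hmono _ _ _ _ _ le_rfl (by omega) hLam
    have hh0 : ∀ i, LR W l D (h i) := fun i => hmono _ _ _ _ _ le_rfl (by omega) (hh i)
    rw [← hw] at r1 c1
    have r0 : ∀ i, LR w l D ((run dz Lam h L).1 i) := fun i =>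
      hmono _ _ _ _ _ le_rfl (by omega) (r1 i)
    have c0 : ∀ m, LR w l D ((run dz Lam h L).2 m) := fun m =>
      hmono _ _ _ _ _ le_rfl (by omega) (c1 m)
    have rd : ∀ i, LR w l D (dz ((run dz Lam h L).1 i)) := fun i => hdz _ _ _ (r1 i)
    have cd : ∀ m, LR w l D (dz ((run dz Lam h L).2 m)) := fun m => hdz _ _ _ (c1 m)
    have hwd : wd W (t :: L).length = 4 * W * w ^ 2 := by
      rw [List.length_cons, hw]
      rfl
    rw [hwd]
    have e4 : w * (W * w) + w * (W * w) + (w * (W * w) + w * (W * w)) = 4 * W * w ^ 2 := by ring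
    -- `ρ t * (Lam * a + g * b)`
    have key : ∀ a b x g : PowerSeries (MvPolynomial (Fin n) K), LR w l D a → LR w l D b →
        LR w l D x → LR W l D g →
        LR (w * (W * w) + w * (W * w)) l D (x * (Lam * a + g * b)) := by
      intro a b x g ha hb hx hg
      rw [mul_add]
      exact (hadd _ _ _ _ _ (hmul _ _ _ _ _ hx (hmul _ _ _ _ _ hLam0 ha))
        (hmul _ _ _ _ _ hx (hmul _ _ _ _ _ hg hb))).1
    refine ⟨fun i => ?_, fun m => ?_⟩
    · change LR _ l D ((run dz Lam h L).1 t * (Lam * dz ((run dz Lam h L).1 i) +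
        h i * (run dz Lam h L).1 i) - (Lam * dz ((run dz Lam h L).1 t) +
        h t * (run dz Lam h L).1 t) * (run dz Lam h L).1 i)
      rw [mul_comm (Lam * dz ((run dz Lam h L).1 t) + h t * (run dz Lam h L).1 t), ← e4]
      exact (hadd _ _ _ _ _ (key _ _ _ _ (rd i) (r0 i) (r0 t) (hh0 i))
        (key _ _ _ _ (rd t) (r0 t) (r0 i) (hh0 t))).2
    · change LR _ l D ((run dz Lam h L).1 t * Lam * (dz ((run dz Lam h L).2 m) +
        if m = 0 then 0 else (run dz Lam h L).2 (m - 1)) - (Lam * dz ((run dz Lam h L).1 t) +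
        h t * (run dz Lam h L).1 t) * (run dz Lam h L).2 m)
      have hif : LR w l D (if m = 0 then 0 else (run dz Lam h L).2 (m - 1)) := by
        split_ifs
        · exact hzero w D
        · exact c0 _
      have e5 : (run dz Lam h L).1 t * Lam * (dz ((run dz Lam h L).2 m) +
          if m = 0 then 0 else (run dz Lam h L).2 (m - 1)) =
          (run dz Lam h L).1 t * (Lam * dz ((run dz Lam h L).2 m) + Lam *
          if m = 0 then 0 else (run dz Lam h L).2 (m - 1)) := by
        rw [mul_assoc, mul_add]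
      rw [e5, mul_comm (Lam * dz ((run dz Lam h L).1 t) + h t * (run dz Lam h L).1 t), ← e4]
      exact (hadd _ _ _ _ _ (key _ _ _ _ (cd m) hif (r0 t) hLam0)
        (key _ _ _ _ (rd t) (r0 t) (c0 m) (hh0 t))).2

end Pool.Agent.WD
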